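import Mathlib
import Pool.Agent.Helper35.HSF.StB
import Pool.Agent.Helper67.PI.M_I1

/-!
Project HSF (MP_925021_gt), module GCH, part A: reparametrisation of second fundamental form,
gradient and divergence; the flat computation at the centre of a graph.
-/

set_option autoImplicit false

namespace Helper33.HSF

open Helper35.HSF Helper35.PI Helper35.PI2 Helper32.CL Helper35.MS
open scoped ContDiff Manifold Topology ENNReal BigOperators
open MeasureTheory Set Filter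

section Gen

variable {n N : ℕ}

/-- gradient in a chart -/
noncomputable def grc (f : EE n → EE N) (g : EE n → ℝ) (x : EE n) : EE N :=
  ∑ k, ∑ m, ((gram f x)⁻¹ k m * fderiv ℝ g x (ee k)) • dv1 f x m

theorem sum1 {V : Type} [AddCommGroup V] [Module ℝ V] (J : Matrix (Fin n) (Fin n) ℝ)
    (U : Fin n → ℝ) (X Y : Fin n → V) (h : ∀ i, X i = ∑ a, J i a • Y a) :
    ∑ i, U i • X i = ∑ a, (Matrix.vecMul U J a) • Y a := by
  simp_rw [h, Finset.smul_sum, smul_smul]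
  rw [Finset.sum_comm]
  refine Finset.sum_congr rfl fun a _ => ?_
  rw [← Finset.sum_smul]
  rfl

theorem sum2 {V : Type} [AddCommGroup V] [Module ℝ V] (J : Matrix (Fin n) (Fin n) ℝ)
    (U : Fin n → ℝ) (X Y : Fin n → Fin n → V)
    (h : ∀ i j, X i j = ∑ a, ∑ b, (J i a * J j b) • Y a b) :
    ∑ i, ∑ j, (U i * U j) • X i j
      = ∑ a, ∑ b, (Matrix.vecMul U J a * Matrix.vecMul U J b) • Y a b := by
  simp_rw [h]
  have h1 := Helper67.PI.contr (Matrix.vecMulVec U U) J Y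
  simp only [Matrix.vecMulVec_apply] at h1
  rw [h1, Matrix.mul_vecMulVec, Matrix.vecMulVec_mul]
  simp only [Matrix.vecMulVec_apply, Matrix.mulVec_transpose]

theorem rp (hNR : StNR) (f h : EE n → EE N) (φ : EE n → EE n) (x : EE n)
    (hf : ContDiffAt ℝ 2 f (φ x)) (hφ : ContDiffAt ℝ 2 φ x)
    (hh : h =ᶠ[𝓝 x] (fun y => f (φ y))) (hLI : LI h x) :
    ∃ J : Matrix (Fin n) (Fin n) ℝ, (∀ i a, J i a = (fderiv ℝ φ x (ee i)) a) ∧ IsUnit J.det ∧
      (∀ i, dv1 h x i = ∑ a, J i a • dv1 f (φ x) a) ∧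
      (∀ i j, sff h x i j = ∑ a, ∑ b, (J i a * J j b) • sff f (φ x) a b) ∧
      J.transpose * (gram h x)⁻¹ * J = (gram f (φ x))⁻¹ := by
  set y := φ x with hy
  set J : Matrix (Fin n) (Fin n) ℝ := Matrix.of fun i a => (fderiv ℝ φ x (ee i)) a with hJdef
  have hJ : ∀ i, dv1 h x i = ∑ a, J i a • dv1 f y a := by
    intro i
    rw [Helper67.PI.first f h φ x hf hφ hh i, Helper67.PI.fderiv_expand]
    rfl
  obtain ⟨hLIf, hspan, hdet⟩ := Helper67.PI.spans f h x y J hJ hLI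
  have hnrm := Helper67.PI.nrm_eq hNR f h x y hLIf hLI hspan
  have hinv := Helper67.PI.gram_inv f h x y J hJ hdet
  obtain ⟨-, f2, -, -, f5, f6, -, -⟩ := hNR n N f y hLIf
  have hsff : ∀ i j, sff h x i j = ∑ a, ∑ b, (J i a * J j b) • sff f y a b := by
    intro i j
    let T : EE N →ₗ[ℝ] EE N :=
      { toFun := nrm f y, map_add' := f5, map_smul' := f6 }
    have hT : ∀ v, T v = nrm f y v := fun v => rfl
    unfold sff
    rw [hnrm, Helper67.PI.second f h φ x hf hφ hh i j, f5, f2 _ (Helper67.PI.fderiv_mem f y _),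
      add_zero, Helper67.PI.second_expand f y hf, ← hT, map_sum]
    refine Finset.sum_congr rfl fun a _ => ?_
    rw [map_sum]
    refine Finset.sum_congr rfl fun b _ => ?_
    rw [map_smul]
    rfl
  exact ⟨J, fun _ _ => rfl, hdet, hJ, hsff, hinv⟩

/-- coordinates transform forwards -/
theorem rpU (hNR : StNR) (f h : EE n → EE N) (φ : EE n → EE n) (x : EE n)
    (hf : ContDiffAt ℝ 2 f (φ x)) (hφ : ContDiffAt ℝ 2 φ x)
    (hh : h =ᶠ[𝓝 x] (fun y => f (φ y))) (hLI : LI h x) (U : Fin n → ℝ) :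
    ∃ c : Fin n → ℝ, ∑ i, c i • dv1 f (φ x) i = ∑ i, U i • dv1 h x i ∧
      ∑ i, ∑ j, (c i * c j) • sff f (φ x) i j = ∑ i, ∑ j, (U i * U j) • sff h x i j := by
  obtain ⟨J, -, -, h1, h2, -⟩ := rp hNR f h φ x hf hφ hh hLI
  exact ⟨Matrix.vecMul U J, (sum1 J U _ _ h1).symm, (sum2 J U _ _ h2).symm⟩

/-- coordinates transform backwards -/
theorem rpC (hNR : StNR) (f h : EE n → EE N) (φ : EE n → EE n) (x : EE n)
    (hf : ContDiffAt ℝ 2 f (φ x)) (hφ : ContDiffAt ℝ 2 φ x)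
    (hh : h =ᶠ[𝓝 x] (fun y => f (φ y))) (hLI : LI h x) (c : Fin n → ℝ) :
    ∃ U : Fin n → ℝ, ∑ i, U i • dv1 h x i = ∑ i, c i • dv1 f (φ x) i ∧
      ∑ i, ∑ j, (U i * U j) • sff h x i j = ∑ i, ∑ j, (c i * c j) • sff f (φ x) i j := by
  obtain ⟨J, -, hd, h1, h2, -⟩ := rp hNR f h φ x hf hφ hh hLI
  have hc : Matrix.vecMul (Matrix.vecMul c J⁻¹) J = c := by
    rw [Matrix.vecMul_vecMul, Matrix.nonsing_inv_mul _ hd, Matrix.vecMul_one]
  refine ⟨Matrix.vecMul c J⁻¹, ?_, ?_⟩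
  · have := sum1 J (Matrix.vecMul c J⁻¹) _ _ h1
    rw [hc] at this
    exact this
  · have := sum2 J (Matrix.vecMul c J⁻¹) _ _ h2
    rw [hc] at this
    exact this

/-- derivative of a composition, in coordinates -/
theorem chainE {V : Type} [NormedAddCommGroup V] [NormedSpace ℝ V] (G : EE n → V) (K : EE n → V)
    (φ : EE n → EE n) (x : EE n) (hG : DifferentiableAt ℝ G (φ x)) (hφ : DifferentiableAt ℝ φ x)
    (hK : K =ᶠ[𝓝 x] (fun y => G (φ y))) (k : Fin n) :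
    fderiv ℝ K x (ee k) = ∑ a, (fderiv ℝ φ x (ee k)) a • fderiv ℝ G (φ x) (ee a) := by
  rw [hK.fderiv_eq, fderiv_fun_comp x hG hφ]
  show fderiv ℝ G (φ x) (fderiv ℝ φ x (ee k)) = _
  conv_lhs => rw [Helper67.PI.expand (fderiv ℝ φ x (ee k))]
  rw [map_sum]
  refine Finset.sum_congr rfl fun a _ => ?_
  rw [map_smul]

theorem grc_inv (hNR : StNR) (f h : EE n → EE N) (φ : EE n → EE n) (x : EE n) (g K : EE n → ℝ)
    (hf : ContDiffAt ℝ 2 f (φ x)) (hφ : ContDiffAt ℝ 2 φ x)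
    (hh : h =ᶠ[𝓝 x] (fun y => f (φ y))) (hLI : LI h x)
    (hg : DifferentiableAt ℝ g (φ x)) (hK : K =ᶠ[𝓝 x] (fun y => g (φ y))) :
    grc h K x = grc f g (φ x) := by
  obtain ⟨J, hJ0, -, h1, -, h3⟩ := rp hNR f h φ x hf hφ hh hLI
  have hd : ∀ k, fderiv ℝ K x (ee k) = ∑ a, J k a • fderiv ℝ g (φ x) (ee a) := by
    intro k
    rw [chainE g K φ x hg (hφ.differentiableAt (by norm_num)) hK k]
    exact Finset.sum_congr rfl fun a _ => by rw [hJ0]
  have h4 : grc h K x = ∑ k, ∑ m, (gram h x)⁻¹ k m • ∑ r, ∑ s, (J k r * J m s) •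
      (fderiv ℝ g (φ x) (ee r) • dv1 f (φ x) s) := by
    unfold grc
    refine Finset.sum_congr rfl fun k _ => Finset.sum_congr rfl fun m _ => ?_
    rw [mul_smul]
    congr 1
    rw [hd, h1, Finset.sum_smul]
    refine Finset.sum_congr rfl fun r _ => ?_
    rw [Finset.smul_sum]
    refine Finset.sum_congr rfl fun s _ => ?_
    simp only [smul_smul, smul_eq_mul]
    congr 1
    ring
  rw [h4, Helper67.PI.contr, h3]
  unfold grc
  refine Finset.sum_congr rfl fun k _ => Finset.sum_congr rfl fun m _ => ?_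
  rw [smul_smul]

theorem dvc_inv (hNR : StNR) (f h : EE n → EE N) (φ : EE n → EE n) (x : EE n) (X Y : EE n → EE N)
    (hf : ContDiffAt ℝ 2 f (φ x)) (hφ : ContDiffAt ℝ 2 φ x)
    (hh : h =ᶠ[𝓝 x] (fun y => f (φ y))) (hLI : LI h x)
    (hX : DifferentiableAt ℝ X (φ x)) (hY : Y =ᶠ[𝓝 x] (fun y => X (φ y))) :
    dvc h Y x = dvc f X (φ x) := by
  obtain ⟨J, hJ0, -, h1, -, h3⟩ := rp hNR f h φ x hf hφ hh hLI
  have hd : ∀ k, fderiv ℝ Y x (ee k) = ∑ a, J k a • fderiv ℝ X (φ x) (ee a) := by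
    intro k
    rw [chainE X Y φ x hX (hφ.differentiableAt (by norm_num)) hY k]
    exact Finset.sum_congr rfl fun a _ => by rw [hJ0]
  have h4 : dvc h Y x = ∑ k, ∑ m, (gram h x)⁻¹ k m • ∑ r, ∑ s, (J k r * J m s) •
      (inner ℝ (fderiv ℝ X (φ x) (ee r)) (dv1 f (φ x) s) : ℝ) := by
    unfold dvc
    refine Finset.sum_congr rfl fun k _ => Finset.sum_congr rfl fun m _ => ?_
    rw [smul_eq_mul]
    congr 1
    rw [hd, h1, sum_inner]
    refine Finset.sum_congr rfl fun r _ => ?_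
    rw [inner_sum]
    refine Finset.sum_congr rfl fun s _ => ?_
    rw [real_inner_smul_left, real_inner_smul_right, smul_eq_mul]
    ring
  rw [h4, Helper67.PI.contr, h3]
  rfl

/-- smoothness of the gradient -/
theorem grc_smooth (hSM : Helper35.PI.StSM) (f : EE n → EE N) (g : EE n → ℝ) (x : EE n)
    (hf : ContDiffAt ℝ ∞ f x) (hg : ContDiffAt ℝ ∞ g x) (hLI : LI f x) :
    ContDiffAt ℝ ∞ (grc f g) x := by
  have hF : ContDiffAt ℝ ∞ (f ∘ (Prod.fst : EE n × ℝ → EE n)) (x, 0) :=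
    ContDiffAt.comp (x, (0 : ℝ)) hf contDiffAt_fst
  obtain ⟨-, -, -, -, -, h1, -⟩ := hSM n N (f ∘ (Prod.fst : EE n × ℝ → EE n)) (x, 0) hF hLI
  have e0 : ∀ z : EE n × ℝ, (fun y => (f ∘ (Prod.fst : EE n × ℝ → EE n)) (y, z.2)) = f :=
    fun z => rfl
  simp only [e0] at h1
  have hi : ContDiffAt ℝ ∞ (fun y : EE n => (y, (0 : ℝ))) x :=
    contDiffAt_id.prodMk contDiffAt_const
  have hG : ∀ i j, ContDiffAt ℝ ∞ (fun y => (gram f y)⁻¹ i j) x := fun i j =>
    ContDiffAt.comp (f := fun y : EE n => (y, (0 : ℝ)))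
      (g := fun z : EE n × ℝ => (gram f z.1)⁻¹ i j) x (h1 i j) hi
  have hd1 : ∀ m, ContDiffAt ℝ ∞ (fun y => dv1 f y m) x := fun m =>
    (hf.fderiv_right (m := ∞) (by simp)).clm_apply contDiffAt_const
  have hd2 : ∀ m, ContDiffAt ℝ ∞ (fun y => fderiv ℝ g y (ee m)) x := fun m =>
    (hg.fderiv_right (m := ∞) (by simp)).clm_apply contDiffAt_const
  unfold grc
  exact ContDiffAt.sum fun k _ => ContDiffAt.sum fun m _ =>
    ((hG k m).mul (hd2 k)).smul (hd1 m)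

/-- slices in time of a differentiable function -/
theorem slT {V : Type} [NormedAddCommGroup V] [NormedSpace ℝ V]
    (φ : EE n × ℝ → V) (y : EE n) (t : ℝ) (h : DifferentiableAt ℝ φ (y, t)) :
    HasDerivAt (fun s : ℝ => φ (y, s)) (jt φ (y, t)) t := by
  have h2 : HasFDerivAt φ (fderiv ℝ φ (y, t)) (y, t) := h.hasFDerivAt
  have h3 : HasDerivAt (fun τ : ℝ => ((y, τ) : EE n × ℝ)) ((0 : EE n), (1 : ℝ)) t :=
    (hasDerivAt_const t y).prodMk (hasDerivAt_id t)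
  exact HasFDerivAt.comp_hasDerivAt (f := fun τ : ℝ => ((y, τ) : EE n × ℝ)) t h2 h3

/-- slices in space of a differentiable function -/
theorem slX {V : Type} [NormedAddCommGroup V] [NormedSpace ℝ V]
    (φ : EE n × ℝ → V) (y : EE n) (t : ℝ) (h : DifferentiableAt ℝ φ (y, t)) :
    HasFDerivAt (fun x : EE n => φ (x, t))
      ((fderiv ℝ φ (y, t)).comp (ContinuousLinearMap.inl ℝ (EE n) ℝ)) y := by
  have h2 : HasFDerivAt φ (fderiv ℝ φ (y, t)) (y, t) := h.hasFDerivAt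
  have h3 : HasFDerivAt (fun x : EE n => ((x, t) : EE n × ℝ))
      (ContinuousLinearMap.inl ℝ (EE n) ℝ) y := hasFDerivAt_prodMk_left y t
  exact HasFDerivAt.comp (f := fun x : EE n => ((x, t) : EE n × ℝ)) y h2 h3

theorem slXe {V : Type} [NormedAddCommGroup V] [NormedSpace ℝ V]
    (φ : EE n × ℝ → V) (y : EE n) (t : ℝ) (h : DifferentiableAt ℝ φ (y, t)) (k : Fin n) :
    fderiv ℝ (fun x : EE n => φ (x, t)) y (ee k) = jg φ (y, t) k := by
  rw [(slX φ y t h).fderiv]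
  simp [jg]

theorem inner_L {L : EE n →ₗᵢ[ℝ] EE N} (i j : Fin n) :
    (inner ℝ (L (ee i)) (L (ee j)) : ℝ) = if i = j then 1 else 0 := by
  rw [L.inner_map_map]
  simp only [ee, EuclideanSpace.inner_single_left, map_one, one_mul, PiLp.single_apply]

/-- gradient and Laplacian at the centre of a graph -/
theorem graph_lap (hSM : Helper35.PI.StSM) (hG0 : StG0) (hG1 : StG1) (hG2 : StG2) {x₀ : EE N}
    {L : EE n →ₗᵢ[ℝ] EE N} {u : EE n × ℝ → EE N} {t₀ : ℝ} (hG : GraphSol x₀ L u t₀)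
    (Φ : EE n × ℝ → ℝ) (hΦ : ContDiffAt ℝ ∞ Φ (0, t₀)) :
    grc (grf x₀ L u t₀) (fun x => Φ (x, t₀)) 0 = ∑ k, jg Φ (0, t₀) k • L (ee k) ∧
    dvc (grf x₀ L u t₀) (grc (grf x₀ L u t₀) (fun x => Φ (x, t₀))) 0
      = ∑ k, jgg Φ (0, t₀) k k := by
  have hg2 := hG2 n N x₀ L u t₀ hG
  have hc : Tendsto (fun x : EE n => ((x, t₀) : EE n × ℝ)) (𝓝 0) (𝓝 (0, t₀)) :=
    (continuous_id.prodMk continuous_const).tendsto _
  have hg20 := hg2.self_of_nhds
  obtain ⟨g1, -, -, g4, g5⟩ := hg20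
  have hdv : ∀ i, dv1 (grf x₀ L u t₀) 0 i = L (ee i) := by
    intro i
    have := g1 i
    rw [this, hG.du0 i, add_zero]
  have hGI : ∀ i j, (gram (grf x₀ L u t₀) 0)⁻¹ i j = if i = j then 1 else 0 := fun i j =>
    (hG0 n N x₀ L u t₀ hG i j).2.1
  have hΦ1 : ∀ᶠ z in 𝓝 ((0 : EE n), t₀), DifferentiableAt ℝ Φ z := by
    have h1 : ContDiffAt ℝ 1 Φ (0, t₀) := hΦ.of_le (by exact_mod_cast le_top)
    filter_upwards [h1.eventually (by simp)] with z hz
    exact hz.differentiableAt (by norm_num)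
  have hΦd : ∀ k, fderiv ℝ (fun x => Φ (x, t₀)) 0 (ee k) = jg Φ (0, t₀) k := fun k =>
    slXe Φ 0 t₀ hΦ1.self_of_nhds k
  refine ⟨?_, ?_⟩
  · unfold grc
    refine Finset.sum_congr rfl fun k _ => ?_
    rw [Finset.sum_eq_single k]
    · rw [hGI, if_pos rfl, hΦd, hdv, one_mul]
    · intro b _ hb
      rw [hGI, if_neg (Ne.symm hb), zero_mul, zero_smul]
    · intro h
      exact absurd (Finset.mem_univ k) h
  -- the graph is smooth
  have hgs : ContDiffAt ℝ ∞ (grf x₀ L u t₀) 0 := by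
    have h1 : ContDiffAt ℝ ∞ (fun x : EE n => u (x, t₀)) 0 :=
      ContDiffAt.comp (f := fun x : EE n => ((x, t₀) : EE n × ℝ)) (g := u) 0 hG.smooth
        (contDiffAt_id.prodMk contDiffAt_const)
    have h2 : ContDiffAt ℝ ∞ (fun x : EE n => x₀ + L x) 0 :=
      contDiffAt_const.add L.toContinuousLinearMap.contDiff.contDiffAt
    exact h2.add h1
  have hs1 : ContDiffAt ℝ ∞ (fun x : EE n => Φ (x, t₀)) 0 :=
    ContDiffAt.comp (f := fun x : EE n => ((x, t₀) : EE n × ℝ)) (g := Φ) 0 hΦ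
      (contDiffAt_id.prodMk contDiffAt_const)
  have hVs := grc_smooth hSM _ _ 0 hgs hs1 g5
  have hVd : DifferentiableAt ℝ (grc (grf x₀ L u t₀) (fun x => Φ (x, t₀))) 0 :=
    hVs.differentiableAt (by simp)
  -- the components of the gradient
  have hcomp : ∀ j, (fun x => (inner ℝ (grc (grf x₀ L u t₀) (fun x => Φ (x, t₀)) x)
      (L (ee j)) : ℝ)) =ᶠ[𝓝 0] fun x => ∑ k, GIf x₀ L u k j (x, t₀) * jg Φ (x, t₀) k := by
    intro j
    filter_upwards [hc.eventually hg2, hc.eventually hΦ1] with x hx hx1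
    obtain ⟨a1, -, -, a4, -⟩ := hx
    unfold grc
    rw [sum_inner]
    refine Finset.sum_congr rfl fun k _ => ?_
    rw [sum_inner, Finset.sum_eq_single j]
    · rw [real_inner_smul_left, slXe Φ x t₀ hx1 k]
      have h1 : dv1 (grf x₀ L u t₀) x j = L (ee j) + jg u (x, t₀) j := a1 j
      rw [h1, inner_add_left, (a4 j j (ee j)).1, inner_L, if_pos rfl, add_zero, mul_one]
      rfl
    · intro b _ hb
      rw [real_inner_smul_left]
      have h1 : dv1 (grf x₀ L u t₀) x b = L (ee b) + jg u (x, t₀) b := a1 b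
      rw [h1, inner_add_left, (a4 b b (ee j)).1, inner_L, if_neg hb, add_zero, mul_zero]
    · intro h
      exact absurd (Finset.mem_univ j) h
  have hjgd : ∀ k, DifferentiableAt ℝ (fun z => jg Φ z k) (0, t₀) := by
    intro k
    have h1 : ContDiffAt ℝ ∞ (fun z => jg Φ z k) (0, t₀) :=
      (hΦ.fderiv_right (m := ∞) (by simp)).clm_apply contDiffAt_const
    exact h1.differentiableAt (by simp)
  have hin : ∀ i j, (inner ℝ (fderiv ℝ (grc (grf x₀ L u t₀) (fun x => Φ (x, t₀))) 0 (ee i))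
      (L (ee j)) : ℝ) = jgg Φ (0, t₀) i j := by
    intro i j
    have h1 : (inner ℝ (fderiv ℝ (grc (grf x₀ L u t₀) (fun x => Φ (x, t₀))) 0 (ee i))
        (L (ee j)) : ℝ) = fderiv ℝ (fun x => (inner ℝ (grc (grf x₀ L u t₀)
          (fun x => Φ (x, t₀)) x) (L (ee j)) : ℝ)) 0 (ee i) := by
      rw [fderiv_inner_apply ℝ hVd (differentiableAt_const _)]
      simp
    rw [h1, (hcomp j).fderiv_eq]
    have h2 : ∀ k, HasFDerivAt (fun x : EE n => GIf x₀ L u k j (x, t₀))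
        ((fderiv ℝ (GIf x₀ L u k j) (0, t₀)).comp (ContinuousLinearMap.inl ℝ (EE n) ℝ)) 0 :=
      fun k => slX _ 0 t₀ (((hG0 n N x₀ L u t₀ hG k j).1).differentiableAt (by simp))
    have h3 : ∀ k, HasFDerivAt (fun x : EE n => jg Φ (x, t₀) k)
        ((fderiv ℝ (fun z => jg Φ z k) (0, t₀)).comp (ContinuousLinearMap.inl ℝ (EE n) ℝ)) 0 :=
      fun k => slX _ 0 t₀ (hjgd k)
    have h4 : HasFDerivAt (fun x : EE n => ∑ k, GIf x₀ L u k j (x, t₀) * jg Φ (x, t₀) k) _ 0 :=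
      HasFDerivAt.fun_sum fun k _ => (h2 k).mul (h3 k)
    rw [h4.fderiv]
    have h5 : ∀ k, GIf x₀ L u k j (0, t₀) = if k = j then 1 else 0 := fun k =>
      (hG0 n N x₀ L u t₀ hG k j).2.1
    have h6 : ∀ k, fderiv ℝ (GIf x₀ L u k j) (0, t₀) (ee i, 0) = 0 := fun k =>
      (hG0 n N x₀ L u t₀ hG k j).2.2.1 i
    rw [ContinuousLinearMap.sum_apply, Finset.sum_eq_single j]
    · simp [h5, h6, jgg, jg]
    · intro b _ hb
      simp [h5, h6, hb]
    · intro h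
      exact absurd (Finset.mem_univ j) h
  unfold dvc
  have h7 : ∀ i j, (gram (grf x₀ L u t₀) 0)⁻¹ i j *
      (inner ℝ (fderiv ℝ (grc (grf x₀ L u t₀) (fun x => Φ (x, t₀))) 0 (ee i))
        (dv1 (grf x₀ L u t₀) 0 j) : ℝ) = if i = j then jgg Φ (0, t₀) i j else 0 := by
    intro i j
    rw [hdv, hin, hGI]
    split_ifs <;> simp
  simp_rw [h7]
  refine Finset.sum_congr rfl fun i _ => ?_
  rw [Finset.sum_ite_eq Finset.univ i, if_pos (Finset.mem_univ i)]

/-- second fundamental form at the centre of a graph -/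
theorem graph_sff (hNR : StNR) (hG1 : StG1) (hG2 : StG2) {x₀ : EE N}
    {L : EE n →ₗᵢ[ℝ] EE N} {u : EE n × ℝ → EE N} {t₀ : ℝ} (hG : GraphSol x₀ L u t₀) :
    (∀ i, dv1 (grf x₀ L u t₀) 0 i = L (ee i)) ∧
    ∀ i j, sff (grf x₀ L u t₀) 0 i j = jgg u (0, t₀) i j := by
  obtain ⟨g1, g2, -, -, g5⟩ := (hG2 n N x₀ L u t₀ hG).self_of_nhds
  have hdv : ∀ i, dv1 (grf x₀ L u t₀) 0 i = L (ee i) := by
    intro i
    have := g1 i
    rw [this, hG.du0 i, add_zero]
  refine ⟨hdv, fun i j => ?_⟩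
  unfold sff
  have h1 := g2 i j
  simp only at h1
  rw [h1]
  refine (hNR n N _ _ g5).2.2.2.1 _ fun k => ?_
  have h2 := hdv k
  simp only
  rw [h2]
  exact (hG1 n N x₀ L u t₀ hG).2.2.1 i j (ee k)

end Gen

end Helper33.HSF
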