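import Mathlib
import Pool.Agent.Helper33.HSF.GCA

/-!
Project HSF (MP_925021_gt), module GCH: graph charts of the flow over a given linear space, and
transfer of derivatives.
-/

set_option autoImplicit false

namespace Helper33.HSF

open Helper35.HSF Helper35.PI Helper35.PI2 Helper32.CL Helper35.MS
open scoped ContDiff Manifold Topology ENNReal BigOperators
open MeasureTheory Set Filter

theorem two_le_top : (2 : WithTop ℕ∞) ≤ ((⊤ : ℕ∞) : WithTop ℕ∞) := by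
  have h : ((2 : ℕ∞) : WithTop ℕ∞) ≤ ((⊤ : ℕ∞) : WithTop ℕ∞) := WithTop.coe_le_coe.2 le_top
  exact h

section Chart

variable {n N : ℕ} {M : Type} [TopologicalSpace M] [ChartedSpace (EE n) M]
  [IsManifold (𝓡 n) ∞ M]

/-- a smooth map on `M × J` in a chart -/
theorem cdChart {V : Type} [NormedAddCommGroup V] [NormedSpace ℝ V] (J : Set ℝ) (φ : M → ℝ → V)
    (hφ : ContMDiffOn ((𝓡 n).prod 𝓘(ℝ, ℝ)) 𝓘(ℝ, V) ∞ (fun z : M × ℝ => φ z.1 z.2)
      (univ ×ˢ J)) (p₀ : M) :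
    ContDiffOn ℝ ∞ (fun z : EE n × ℝ => φ ((chartAt (EE n) p₀).symm z.1) z.2)
      ((chartAt (EE n) p₀).target ×ˢ J) := by
  have h1 : ContMDiffOn (𝓡 n) (𝓡 n) ∞ (chartAt (EE n) p₀).symm (chartAt (EE n) p₀).target :=
    contMDiffOn_chart_symm
  have h2 : ContMDiffOn ((𝓡 n).prod 𝓘(ℝ, ℝ)) ((𝓡 n).prod 𝓘(ℝ, ℝ)) ∞
      (fun z : EE n × ℝ => ((chartAt (EE n) p₀).symm z.1, z.2))
      ((chartAt (EE n) p₀).target ×ˢ J) := by
    refine ContMDiffOn.prodMk ?_ ?_
    · exact h1.comp contMDiff_fst.contMDiffOn (fun z hz => hz.1)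
    · exact contMDiff_snd.contMDiffOn
  have h3 : ContMDiffOn ((𝓡 n).prod 𝓘(ℝ, ℝ)) 𝓘(ℝ, V) ∞
      (fun z : EE n × ℝ => φ ((chartAt (EE n) p₀).symm z.1) z.2)
      ((chartAt (EE n) p₀).target ×ˢ J) := by
    have := hφ.comp h2 (fun z hz => ⟨mem_univ _, hz.2⟩)
    exact this
  rw [← contMDiffOn_iff_contDiffOn]
  rw [modelWithCornersSelf_prod, ← chartedSpaceSelf_prod]
  exact h3

/-- the transition map -/
theorem trans (p q : M) (hq : q ∈ (chartAt (EE n) p).source) :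
    ContDiffAt ℝ ∞ (fun y => chartAt (EE n) p ((chartAt (EE n) q).symm y))
      (chartAt (EE n) q q) ∧
    chartAt (EE n) p ((chartAt (EE n) q).symm (chartAt (EE n) q q)) = chartAt (EE n) p q ∧
    ∀ {V : Type} (g : M → V), (fun y => g ((chartAt (EE n) q).symm y))
      =ᶠ[𝓝 (chartAt (EE n) q q)]
      (fun y => g ((chartAt (EE n) p).symm (chartAt (EE n) p ((chartAt (EE n) q).symm y)))) := by
  have hqq : q ∈ (chartAt (EE n) q).source := mem_chart_source (EE n) q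
  have hxt : chartAt (EE n) q q ∈ (chartAt (EE n) q).target :=
    (chartAt (EE n) q).map_source hqq
  have hsymm : (chartAt (EE n) q).symm (chartAt (EE n) q q) = q :=
    (chartAt (EE n) q).left_inv hqq
  refine ⟨?_, by rw [hsymm], ?_⟩
  · have h := contDiffWithinAt_ext_coord_change (I := 𝓡 n) (n := ∞) (𝕜 := ℝ) p q
      (y := chartAt (EE n) q q) (by
        rw [ext_coord_change_source]
        refine ⟨chartAt (EE n) q q, ?_, rfl⟩
        rw [OpenPartialHomeomorph.trans_source]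
        refine ⟨hxt, ?_⟩
        change (chartAt (EE n) q).symm (chartAt (EE n) q q) ∈ (chartAt (EE n) p).source
        rw [hsymm]
        exact hq)
    rw [ModelWithCorners.range_eq_univ, contDiffWithinAt_univ] at h
    exact h
  · intro V g
    have hc : ContinuousAt (chartAt (EE n) q).symm (chartAt (EE n) q q) :=
      (chartAt (EE n) q).continuousAt_symm hxt
    have hev : ∀ᶠ y in 𝓝 (chartAt (EE n) q q),
        (chartAt (EE n) q).symm y ∈ (chartAt (EE n) p).source := by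
      apply hc.eventually_mem
      rw [hsymm]
      exact (chartAt (EE n) p).open_source.mem_nhds hq
    filter_upwards [hev] with y hy
    rw [(chartAt (EE n) p).left_inv hy]

/-- smoothness of the flow at a fixed time in the chart of `p` -/
theorem locSmooth (hI2 : StI2J) {J : Set ℝ} {F : M → ℝ → EE N} (hF : IsImmJ (n := n) J F)
    {t : ℝ} (ht : t ∈ J) (p : M) (y : EE n) (hy : y ∈ (chartAt (EE n) p).target) :
    ContDiffAt ℝ ∞ (loc (n := n) F p t) y := by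
  have h := hI2 n N M J F hF p
  have hmem : (chartAt (EE n) p).target ×ˢ J ∈ 𝓝 (y, t) :=
    prod_mem_nhds ((chartAt (EE n) p).open_target.mem_nhds hy) (hF.op.mem_nhds ht)
  have h2 : ContDiffAt ℝ ∞ (fun z : EE n × ℝ => F ((chartAt (EE n) p).symm z.1) z.2)
      (y, t) := h.contDiffAt hmem
  have h4 : ContDiffAt ℝ ∞ (fun y : EE n => (y, t)) y :=
    contDiffAt_id.prodMk contDiffAt_const
  exact h2.comp y h4

/-- coordinates of a tangent vector in another chart -/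
theorem fs_chart (hNR : StNR) (hI2 : StI2J) {J : Set ℝ} {F : M → ℝ → EE N}
    (hF : IsImmJ (n := n) J F) {t : ℝ} (ht : t ∈ J) (p q : M)
    (hq : q ∈ (chartAt (EE n) p).source) (c : Fin n → ℝ) :
    ∃ c' : Fin n → ℝ,
      tv F q t c' = ∑ i, c i • dv1 (loc (n := n) F p t) (chartAt (EE n) p q) i ∧
      An F q t c' = ∑ i, ∑ j, (c i * c j) • sff (loc (n := n) F p t) (chartAt (EE n) p q) i j := by
  obtain ⟨h1, h2, h3⟩ := trans p q hq
  have hf : ContDiffAt ℝ ∞ (loc (n := n) F p t)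
      ((fun y => chartAt (EE n) p ((chartAt (EE n) q).symm y)) (chartAt (EE n) q q)) := by
    simp only [h2]
    exact locSmooth hI2 hF ht p _ ((chartAt (EE n) p).map_source hq)
  obtain ⟨U, hU1, hU2⟩ := rpC hNR (loc (n := n) F p t) (loc (n := n) F q t)
    (fun y => chartAt (EE n) p ((chartAt (EE n) q).symm y)) (chartAt (EE n) q q)
    (hf.of_le two_le_top) (h1.of_le two_le_top) (h3 fun m => F m t) (hF.imm q t ht) c
  simp only [h2] at hU1 hU2
  exact ⟨U, hU1, hU2⟩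

/-- the gradient in another chart -/
theorem gdM_chart (hNR : StNR) (hI2 : StI2J) {J : Set ℝ} {F : M → ℝ → EE N}
    (hF : IsImmJ (n := n) J F) {t : ℝ} (ht : t ∈ J) (p q : M)
    (hq : q ∈ (chartAt (EE n) p).source) (g : M → ℝ)
    (hg : DifferentiableAt ℝ (fun y => g ((chartAt (EE n) p).symm y)) (chartAt (EE n) p q)) :
    gdM n F t g q = grc (loc (n := n) F p t) (fun y => g ((chartAt (EE n) p).symm y))
      (chartAt (EE n) p q) := by
  obtain ⟨h1, h2, h3⟩ := trans p q hq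
  have hf : ContDiffAt ℝ ∞ (loc (n := n) F p t)
      ((fun y => chartAt (EE n) p ((chartAt (EE n) q).symm y)) (chartAt (EE n) q q)) := by
    simp only [h2]
    exact locSmooth hI2 hF ht p _ ((chartAt (EE n) p).map_source hq)
  have h4 := grc_inv hNR (loc (n := n) F p t) (loc (n := n) F q t)
    (fun y => chartAt (EE n) p ((chartAt (EE n) q).symm y)) (chartAt (EE n) q q)
    (fun y => g ((chartAt (EE n) p).symm y)) (fun y => g ((chartAt (EE n) q).symm y))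
    (hf.of_le two_le_top) (h1.of_le two_le_top) (h3 fun m => F m t) (hF.imm q t ht)
    (by simp only [h2]; exact hg) (h3 g)
  simp only [h2] at h4
  exact h4

end Chart

theorem hGCH (hSM : Helper35.PI.StSM) (_hI1 : StI1) (hI2 : StI2J) (hI3 : StI3J) (hC2 : StC2)
    (hC3 : StC3) (hMT : StMT) (hG0 : StG0) (hG1 : StG1) (hG2 : StG2) (_hV6a : StV6aJ)
    (_hFR : StFR) (hNR : StNR) : StGCH := by
  intro n N M _ _ _ J F hF p₀ t₀ ht₀ L hL
  set e := chartAt (EE n) p₀ with he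
  set f : EE n × ℝ → EE N := fun z => F (e.symm z.1) z.2 with hf
  set y₀ : EE n := e p₀ with hy₀
  have hsm := hI2 n N M J F hF.toIsImmJ p₀
  have hopen : IsOpen (e.target ×ˢ J) := e.open_target.prod hF.op
  have hy₀t : y₀ ∈ e.target := e.map_source (mem_chart_source (EE n) p₀)
  have hp₀ : e.symm y₀ = p₀ := e.left_inv (mem_chart_source (EE n) p₀)
  have hmem : (y₀, t₀) ∈ e.target ×ˢ J := ⟨hy₀t, ht₀⟩
  have hfat : ∀ z ∈ e.target ×ˢ J, ContDiffAt ℝ ∞ f z := fun z hz =>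
    (hsm z hz).contDiffAt (hopen.mem_nhds hz)
  have hLI : LI (fun y => f (y, t₀)) y₀ := hF.imm p₀ t₀ ht₀
  obtain ⟨ψ, hψs, hψ0, hψe⟩ := hC2 n N f y₀ t₀ L (hfat _ hmem) hLI hL
  have hpde : ∀ᶠ z in 𝓝 (y₀, t₀), jt f z = mcv (fun y => f (y, z.2)) z.1 := by
    filter_upwards [hopen.mem_nhds hmem] with z hz
    have h1 : HasDerivAt (fun τ => F (e.symm z.1) τ) (HH (n := n) F (e.symm z.1) z.2) z.2 :=
      hF.flow _ _ hz.2
    have h4 : HasDerivAt (fun τ : ℝ => f (z.1, τ)) (jt f (z.1, z.2)) z.2 :=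
      slT f z.1 z.2 ((hfat z hz).differentiableAt (by simp))
    have h5 : jt f z = HH (n := n) F (e.symm z.1) z.2 := h4.unique h1
    have h6 := (hI3 n N M J F hF.toIsImmJ p₀ (e.symm z.1) z.2 hz.2 (e.map_target hz.1)).2.1
    rw [h5, h6]
    have h7 : (chartAt (EE n) p₀) (e.symm z.1) = z.1 := e.right_inv hz.1
    rw [h7]
    rfl
  obtain ⟨hG, hev⟩ := hC3 n N f y₀ t₀ L ψ (hfat _ hmem) hLI hL hpde hψs hψ0 hψe _ rfl
  have hMT1 : jt ψ (0, t₀) = 0 :=
    (hMT n N f y₀ t₀ L ψ (hfat _ hmem) hLI hL hpde hψs hψ0 hψe).1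
  have hfy : f (y₀, t₀) = F p₀ t₀ := by
    simp only [hf]
    rw [hp₀]
  simp only [hfy] at hG hev
  set u : EE n × ℝ → EE N := fun z => f (ψ z, z.2) - F p₀ t₀ - L z.1 with hu
  have hgr : ∀ (t : ℝ) (x : EE n), grf (F p₀ t₀) L u t x = loc (n := n) F p₀ t (ψ (x, t)) := by
    intro t x
    show F p₀ t₀ + L x + (f (ψ (x, t), t) - F p₀ t₀ - L x) = f (ψ (x, t), t)
    abel
  have hψc : ContinuousAt ψ ((0 : EE n), t₀) := hψs.continuousAt
  have h8 : ∀ᶠ z in 𝓝 ((0 : EE n), t₀), ψ z ∈ e.target := by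
    apply hψc.eventually
    rw [hψ0]; exact e.open_target.mem_nhds hy₀t
  have h9 : ∀ᶠ z in 𝓝 ((0 : EE n), t₀), z.2 ∈ J := by
    have : ContinuousAt (fun z : EE n × ℝ => z.2) ((0 : EE n), t₀) := continuousAt_snd
    exact this.eventually (hF.op.mem_nhds ht₀)
  have hψ2 : ∀ᶠ z in 𝓝 ((0 : EE n), t₀), ContDiffAt ℝ 2 ψ z := by
    have h1 : ContDiffAt ℝ 2 ψ ((0 : EE n), t₀) := hψs.of_le two_le_top
    exact h1.eventually (by simp)
  -- the hypotheses for the reparametrisation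
  have hkey : ∀ᶠ z in 𝓝 ((0 : EE n), t₀), ψ z ∈ e.target ∧ z.2 ∈ J ∧
      ContDiffAt ℝ 2 (loc (n := n) F p₀ z.2) (ψ z) ∧
      ContDiffAt ℝ 2 (fun x : EE n => ψ (x, z.2)) z.1 ∧
      LI (grf (F p₀ t₀) L u z.2) z.1 := by
    filter_upwards [h8, h9, hψ2, hG2 n N (F p₀ t₀) L u t₀ hG] with z a1 a2 a3 a4
    refine ⟨a1, a2, (locSmooth hI2 hF.toIsImmJ a2 p₀ _ a1).of_le two_le_top, ?_, a4.2.2.2.2⟩
    have h1 : ContDiffAt ℝ 2 (fun y : EE n => ((y, z.2) : EE n × ℝ)) z.1 :=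
      contDiffAt_id.prodMk contDiffAt_const
    exact ContDiffAt.comp (f := fun y : EE n => ((y, z.2) : EE n × ℝ)) (g := ψ) z.1 a3 h1
  have hgrE : ∀ z : EE n × ℝ, grf (F p₀ t₀) L u z.2 =ᶠ[𝓝 z.1]
      (fun y => loc (n := n) F p₀ z.2 ((fun x : EE n => ψ (x, z.2)) y)) := fun z =>
    Eventually.of_forall fun x => hgr z.2 x
  have hsff := graph_sff hNR hG1 hG2 hG
  -- general transfer of a smooth function
  have hjt : ∀ {V : Type} [NormedAddCommGroup V] [NormedSpace ℝ V] (φ : M → ℝ → V),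
      ContMDiffOn ((𝓡 n).prod 𝓘(ℝ, ℝ)) 𝓘(ℝ, V) ∞ (fun z : M × ℝ => φ z.1 z.2) (univ ×ˢ J) →
      ContDiffAt ℝ ∞ (fun z : EE n × ℝ => φ (e.symm (ψ z)) z.2) (0, t₀) ∧
      jt (fun z : EE n × ℝ => φ (e.symm (ψ z)) z.2) (0, t₀)
        = deriv (fun s => φ p₀ s) t₀ := by
    intro V _ _ φ hφ
    have hs : ContDiffAt ℝ ∞ (fun z : EE n × ℝ => φ (e.symm z.1) z.2) (y₀, t₀) :=
      (cdChart J φ hφ p₀ _ hmem).contDiffAt (hopen.mem_nhds hmem)
    have hs' : ContDiffAt ℝ ∞ (fun z : EE n × ℝ => φ (e.symm z.1) z.2)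
        ((fun z : EE n × ℝ => (ψ z, z.2)) (0, t₀)) := by
      simp only [hψ0]
      exact hs
    have hg : ContDiffAt ℝ ∞ (fun z : EE n × ℝ => (ψ z, z.2)) (0, t₀) :=
      hψs.prodMk contDiffAt_snd
    refine ⟨ContDiffAt.comp (f := fun z : EE n × ℝ => (ψ z, z.2))
      (g := fun z : EE n × ℝ => φ (e.symm z.1) z.2) _ hs' hg, ?_⟩
    have h1 : HasFDerivAt (fun z : EE n × ℝ => φ (e.symm z.1) z.2)
        (fderiv ℝ (fun z : EE n × ℝ => φ (e.symm z.1) z.2) (y₀, t₀))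
        ((fun z : EE n × ℝ => (ψ z, z.2)) (0, t₀)) := by
      simp only [hψ0]
      exact (hs.differentiableAt (by simp)).hasFDerivAt
    have h2 : HasFDerivAt (fun z : EE n × ℝ => (ψ z, z.2))
        ((fderiv ℝ ψ (0, t₀)).prod (ContinuousLinearMap.snd ℝ (EE n) ℝ)) (0, t₀) :=
      ((hψs.differentiableAt (by simp)).hasFDerivAt).prodMk hasFDerivAt_snd
    have h3 := (h1.comp ((0 : EE n), t₀) h2).fderiv
    have h4 : jt (fun z : EE n × ℝ => φ (e.symm (ψ z)) z.2) (0, t₀)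
        = fderiv ℝ (fun z : EE n × ℝ => φ (e.symm z.1) z.2) (y₀, t₀)
          (fderiv ℝ ψ (0, t₀) (0, 1), 1) := by
      show fderiv ℝ ((fun z : EE n × ℝ => φ (e.symm z.1) z.2) ∘
        (fun z : EE n × ℝ => (ψ z, z.2))) (0, t₀) (0, 1) = _
      rw [h3]
      rfl
    have h5 : fderiv ℝ ψ (0, t₀) (0, 1) = 0 := hMT1
    rw [h4, h5]
    have h6 := slT (fun z : EE n × ℝ => φ (e.symm z.1) z.2) y₀ t₀
      (hs.differentiableAt (by simp))
    simp only [hp₀] at h6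
    exact h6.deriv.symm
  refine ⟨u, fun z => e.symm (ψ z), ?_, ?_, ?_⟩
  · refine ⟨hG, hL, ?_, ?_, ?_, ?_, ?_, ?_, ?_⟩
    · show e.symm (ψ (0, t₀)) = p₀
      rw [hψ0, hp₀]
    · have : ContinuousAt e.symm (ψ (0, t₀)) := by
        rw [hψ0]; exact e.continuousAt_symm hy₀t
      exact ContinuousAt.comp (f := ψ) this hψc
    · exact Eventually.of_forall fun z => (hgr z.2 z.1).symm
    · filter_upwards [hev, h8, h9] with z hz hz1 hz2
      obtain ⟨a1, a2, a3, a4⟩ := hz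
      have hs : e.symm (ψ z) ∈ e.source := e.map_target hz1
      obtain ⟨-, b2, b3, b4, -⟩ := hI3 n N M J F hF.toIsImmJ p₀ (e.symm (ψ z)) z.2 hz2 hs
      have h7 : (chartAt (EE n) p₀) (e.symm (ψ z)) = ψ z := e.right_inv hz1
      rw [h7] at b2 b3 b4
      exact ⟨b2.trans a2.symm, b3.trans a3.symm, b4.trans a4.symm⟩
    · filter_upwards [hkey] with z hz
      obtain ⟨a1, a2, a3, a4, a5⟩ := hz
      have hs : e.symm (ψ z) ∈ e.source := e.map_target a1
      obtain ⟨-, -, -, -, b5⟩ := hI3 n N M J F hF.toIsImmJ p₀ (e.symm (ψ z)) z.2 a2 hs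
      have h7 : (chartAt (EE n) p₀) (e.symm (ψ z)) = ψ z := e.right_inv a1
      rw [h7] at b5
      rw [b5]
      exact (_hI1 n N (loc (n := n) F p₀ z.2) (grf (F p₀ t₀) L u z.2)
        (fun x : EE n => ψ (x, z.2)) z.1 a3 a4 (hgrE z) a5).2.2.2.2
    · filter_upwards [hkey] with z hz U
      obtain ⟨a1, a2, a3, a4, a5⟩ := hz
      have hs : e.symm (ψ z) ∈ e.source := e.map_target a1
      have h7 : (chartAt (EE n) p₀) (e.symm (ψ z)) = ψ z := e.right_inv a1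
      obtain ⟨c, c1, c2⟩ := rpU hNR (loc (n := n) F p₀ z.2) (grf (F p₀ t₀) L u z.2)
        (fun x : EE n => ψ (x, z.2)) z.1 a3 a4 (hgrE z) a5 U
      obtain ⟨c', d1, d2⟩ := fs_chart hNR hI2 hF.toIsImmJ a2 p₀ (e.symm (ψ z)) hs c
      rw [h7] at d1 d2
      exact ⟨c', d1.trans c1, d2.trans c2⟩
    · intro c
      obtain ⟨a1, a2, a3, a4, a5⟩ := hkey.self_of_nhds
      obtain ⟨U, d1, d2⟩ := rpC hNR (loc (n := n) F p₀ t₀) (grf (F p₀ t₀) L u t₀)
        (fun x : EE n => ψ (x, t₀)) 0 a3 a4 (hgrE (0, t₀)) a5 c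
      simp only [hψ0] at d1 d2
      refine ⟨U, ?_, ?_⟩
      · have h1 : tv F p₀ t₀ c = ∑ i, c i • dv1 (loc (n := n) F p₀ t₀) y₀ i := rfl
        rw [h1, ← d1]
        exact Finset.sum_congr rfl fun i _ => by rw [hsff.1]
      · have h1 : An F p₀ t₀ c
            = ∑ i, ∑ j, (c i * c j) • sff (loc (n := n) F p₀ t₀) y₀ i j := rfl
        rw [h1, ← d2]
        exact Finset.sum_congr rfl fun i _ => Finset.sum_congr rfl fun j _ => by rw [hsff.2]
  · intro φ hφ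
    obtain ⟨t1, t2⟩ := hjt φ hφ
    obtain ⟨l1, l2⟩ := graph_lap hSM hG0 hG1 hG2 hG
      (fun z : EE n × ℝ => φ (e.symm (ψ z)) z.2) t1
    set gs : EE n → ℝ := fun y => φ (e.symm y) t₀ with hgs
    have hgsd : ∀ y ∈ e.target, ContDiffAt ℝ ∞ gs y := by
      intro y hy
      have h1 : ContDiffAt ℝ ∞ (fun z : EE n × ℝ => φ (e.symm z.1) z.2) (y, t₀) :=
        (cdChart J φ hφ p₀ _ ⟨hy, ht₀⟩).contDiffAt (hopen.mem_nhds ⟨hy, ht₀⟩)
      exact ContDiffAt.comp (f := fun y : EE n => ((y, t₀) : EE n × ℝ))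
        (g := fun z : EE n × ℝ => φ (e.symm z.1) z.2) y h1
        (contDiffAt_id.prodMk contDiffAt_const)
    have hg1 : ∀ y ∈ e.target, gdM n F t₀ (fun q => φ q t₀) (e.symm y)
        = grc (loc (n := n) F p₀ t₀) gs y := by
      intro y hy
      have h7 : (chartAt (EE n) p₀) (e.symm y) = y := e.right_inv hy
      have := gdM_chart hNR hI2 hF.toIsImmJ ht₀ p₀ (e.symm y) (e.map_target hy)
        (fun q => φ q t₀) (by rw [h7]; exact (hgsd y hy).differentiableAt (by simp))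
      rw [h7] at this
      exact this
    have hct : Tendsto (fun x : EE n => ((x, t₀) : EE n × ℝ)) (𝓝 0) (𝓝 (0, t₀)) :=
      (continuous_id.prodMk continuous_const).tendsto _
    have hg2 : grc (grf (F p₀ t₀) L u t₀) (fun x => φ (e.symm (ψ (x, t₀))) t₀)
        =ᶠ[𝓝 0] fun x => grc (loc (n := n) F p₀ t₀) gs ((fun x : EE n => ψ (x, t₀)) x) := by
      filter_upwards [hct.eventually hkey] with x hx
      obtain ⟨a1, a2, a3, a4, a5⟩ := hx
      exact grc_inv hNR (loc (n := n) F p₀ t₀) (grf (F p₀ t₀) L u t₀)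
        (fun x : EE n => ψ (x, t₀)) x gs (fun x => φ (e.symm (ψ (x, t₀))) t₀) a3 a4
        (hgrE (x, t₀)) a5 ((hgsd _ a1).differentiableAt (by simp))
        (Eventually.of_forall fun _ => rfl)
    obtain ⟨a1, a2, a3, a4, a5⟩ := hkey.self_of_nhds
    have hLIp : LI (loc (n := n) F p₀ t₀) y₀ := hLI
    have hgrcd : DifferentiableAt ℝ (grc (loc (n := n) F p₀ t₀) gs) y₀ :=
      (grc_smooth hSM _ _ y₀ (locSmooth hI2 hF.toIsImmJ ht₀ p₀ y₀ hy₀t)
        (hgsd y₀ hy₀t) hLIp).differentiableAt (by simp)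
    have hdv := dvc_inv hNR (loc (n := n) F p₀ t₀) (grf (F p₀ t₀) L u t₀)
      (fun x : EE n => ψ (x, t₀)) 0 (grc (loc (n := n) F p₀ t₀) gs)
      (grc (grf (F p₀ t₀) L u t₀) (fun x => φ (e.symm (ψ (x, t₀))) t₀)) a3 a4
      (hgrE (0, t₀)) a5 (by simp only [hψ0]; exact hgrcd) hg2
    simp only [hψ0] at hdv
    have hlap : lapN n F φ p₀ t₀ = dvc (loc (n := n) F p₀ t₀)
        (grc (loc (n := n) F p₀ t₀) gs) y₀ := by
      have he1 : (fun y => gdM n F t₀ (fun q => φ q t₀) (e.symm y)) =ᶠ[𝓝 y₀]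
          grc (loc (n := n) F p₀ t₀) gs := by
        filter_upwards [e.open_target.mem_nhds hy₀t] with y hy
        exact hg1 y hy
      show ∑ i, ∑ j, (gram (loc (n := n) F p₀ t₀) y₀)⁻¹ i j *
        (inner ℝ (fderiv ℝ (fun y => gdM n F t₀ (fun q => φ q t₀) (e.symm y)) y₀ (ee i))
          (dv1 (loc (n := n) F p₀ t₀) y₀ j) : ℝ) = _
      rw [he1.fderiv_eq]
      rfl
    refine ⟨t1, t2, ?_, ?_⟩
    · unfold jh htN
      rw [t2, hlap, ← hdv, ← l2]
    · have h1 := hg1 y₀ hy₀t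
      rw [hp₀] at h1
      rw [h1, ← l1]
      have h2 := hg2.self_of_nhds
      simp only [hψ0] at h2
      exact h2.symm
  · intro φ hφ
    exact hjt φ hφ

end Helper33.HSF
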